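import Pool.Agent.R538.Clk.Red

/-!
# `k`-click Clickomania is W[2]-hard (elimination variant and score variant)
-/

namespace Pool.Agent.Results.MP_e74eef_lc.ClickomaniaW2Hard

open Pool.Agent.R538.Clk Pool.Agent.H633R2 Pool.Agent.NPC

/-- All columns are non-empty and only the five colours `0, 1, 2, 3, 4` occur. -/
def FiveCol (B : Board) : Prop := ∀ c ∈ B, c ≠ [] ∧ ∀ t ∈ c, t < 5

theorem fiveCol_red (x : List (List Bool) × ℕ) : FiveCol (red x).1 := by
  unfold red
  split_ifs with h0
  · intro c hc
    simp only [List.mem_singleton] at hc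
    subst hc
    refine ⟨by simp, fun t ht => ?_⟩
    simp at ht
    omega
  · rw [brd_eq]
    intro c hc
    have hm : ∀ j : ℕ, j % 2 < 5 := fun j => by omega
    unfold brd at hc
    simp only [List.mem_append, List.mem_flatten, List.mem_replicate, List.mem_cons,
      List.not_mem_nil, or_false] at hc
    rcases hc with ⟨l, ⟨-, rfl⟩, hc⟩ | rfl | rfl
    · simp only [List.mem_flatMap, List.mem_range, List.mem_cons, List.not_mem_nil, or_false] at hc
      obtain ⟨w, -, rfl | rfl⟩ := hc
      · refine ⟨by simp [colN], fun t ht => ?_⟩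
        simp only [colN, List.mem_append, List.mem_flatMap, List.mem_range, List.mem_replicate,
          List.mem_singleton] at ht
        rcases ht with ⟨j, -, -, rfl⟩ | ⟨-, rfl⟩ | rfl
        · exact hm j
        · omega
        · omega
      · refine ⟨by simp [colV, Par.H], fun t ht => ?_⟩
        simp only [colV, List.mem_append, List.mem_flatMap, List.mem_range,
          List.mem_replicate] at ht
        rcases ht with ⟨j, -, -, rfl⟩ | ⟨-, rfl⟩
        · exact hm j
        · omega
    · refine ⟨by simp, fun t ht => ?_⟩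
      simp at ht
      omega
    · refine ⟨by simp [Par.Zs], fun t ht => ?_⟩
      have := List.eq_of_mem_replicate ht
      omega

theorem red_elim : FptReduces (fun x : List (List Bool) × ℕ => x.2) HasDomSet
    (fun x : Board × ℕ => x.2) Elim :=
  ⟨red, fun k => k + 5, FptTime.of_poly poly_red, add_computable Computable.id (Computable.const 5),
    fun x => ⟨red_iff x, red_par x⟩⟩

theorem red_score : FptReduces (fun x : List (List Bool) × ℕ => x.2) HasDomSet
    (fun x : Board × ℕ × ℕ => x.2.1) Score :=
  ⟨redS, fun k => k + 5, FptTime.of_poly poly_redS,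
    add_computable Computable.id (Computable.const 5), fun x => ⟨redS_iff x, red_par x⟩⟩

theorem red_elim5 : FptReduces (fun x : List (List Bool) × ℕ => x.2) HasDomSet
    (fun x : Board × ℕ => x.2) (fun x => FiveCol x.1 ∧ Elim x) :=
  ⟨red, fun k => k + 5, FptTime.of_poly poly_red, add_computable Computable.id (Computable.const 5),
    fun x => ⟨(red_iff x).trans ⟨fun h => ⟨fiveCol_red x, h⟩, fun h => h.2⟩, red_par x⟩⟩

theorem red_score5 : FptReduces (fun x : List (List Bool) × ℕ => x.2) HasDomSet
    (fun x : Board × ℕ × ℕ => x.2.1) (fun x => FiveCol x.1 ∧ Score x) :=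
  ⟨redS, fun k => k + 5, FptTime.of_poly poly_redS,
    add_computable Computable.id (Computable.const 5),
    fun x => ⟨(redS_iff x).trans ⟨fun h => ⟨fiveCol_red x, h⟩, fun h => h.2⟩, red_par x⟩⟩

/-- Both variants of `k`-click Clickomania are W[2]-hard, also when restricted to boards with five
colours; if one of the two variants belongs to W[1] then W[2] is contained in W[1]. -/
theorem result :
    (W2Hard (fun x : Board × ℕ => x.2) Elim ∧
      W2Hard (fun x : Board × ℕ => x.2) (fun x => FiveCol x.1 ∧ Elim x)) ∧
    (W2Hard (fun x : Board × ℕ × ℕ => x.2.1) Score ∧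
      W2Hard (fun x : Board × ℕ × ℕ => x.2.1) (fun x => FiveCol x.1 ∧ Score x)) ∧
    ((InW1 (fun x : Board × ℕ => x.2) Elim ∨ InW1 (fun x : Board × ℕ × ℕ => x.2.1) Score) →
      ∀ (α : Type) [TEnc α] (κ : α → ℕ) (P : α → Prop), InW2 κ P → InW1 κ P) := by
  refine ⟨⟨fun _ _ _ _ hP => FptReduces.trans hP red_elim,
    fun _ _ _ _ hP => FptReduces.trans hP red_elim5⟩,
    ⟨fun _ _ _ _ hP => FptReduces.trans hP red_score,
    fun _ _ _ _ hP => FptReduces.trans hP red_score5⟩, ?_⟩
  rintro (h | h) α _ κ P hP
  · exact FptReduces.trans hP (FptReduces.trans red_elim h)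
  · exact FptReduces.trans hP (FptReduces.trans red_score h)

end Pool.Agent.Results.MP_e74eef_lc.ClickomaniaW2Hard
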